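import Pool.Agent.Helper44.GN.Defs
import Pool.Agent.Helper37.GF.LIM
import Pool.Agent.Helper44.GF.MAIN

set_option autoImplicit false

open Finset MeasureTheory Filter Topology Matrix
open scoped ENNReal ContDiff

namespace Pool.Agent.Helper44.GN

open Pool.Agent.Helper44.GF

theorem st_FLM : ST_FLM := by
  intro m n Λk Λ a b ha hc hb hl hpos hFI K F θ hθ hcyc i
  have hM : ∀ j, Tendsto (fun k => MM (Λk k) (F j).mat) atTop (𝓝 (MM Λ (F j).mat)) := fun j =>
    lim_MM ha hc hb hl (F j).mat (main_injective (F j))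
  have hq : ∀ j, Tendsto (fun k => (volume (F j).dom).toReal / MM (Λk k) (F j).mat) atTop
      (𝓝 ((volume (F j).dom).toReal / MM Λ (F j).mat)) := fun j =>
    tendsto_const_nhds.div (hM j) (hpos (F j)).ne'
  refine le_of_tendsto_of_tendsto' (hq i) (tendsto_finsetSum _ fun j _ => hq j) fun k => ?_
  exact hFI k K F θ hθ hcyc i

end Pool.Agent.Helper44.GN
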