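import Pool.Agent.Helper44.GN.Defs

set_option autoImplicit false

open Finset MeasureTheory Filter Topology Matrix
open scoped ENNReal ContDiff

namespace Pool.Agent.Helper44.GN

open Pool.Agent.Helper44.GF

theorem tay_open (n : ℕ) : IsOpen (Og n) := by
  have : Og n = Set.pi Set.univ (fun _ : Fin n => Set.Ioi (0 : ℝ)) := by
    ext y
    simp [Og, Set.mem_pi]
  rw [this]
  exact isOpen_set_pi Set.finite_univ fun _ _ => isOpen_Ioi

theorem tay_sub {n : ℕ} {δ : ℝ} (hδ : 0 < δ) : Bx n δ ⊆ Og n := by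
  intro z hz x
  exact lt_of_lt_of_le hδ (hz x (Set.mem_univ x)).1

theorem tay_compact (n : ℕ) (δ : ℝ) : IsCompact (Bx n δ) :=
  isCompact_univ_pi fun _ => isCompact_Icc

theorem tay_convex (n : ℕ) (δ : ℝ) : Convex ℝ (Bx n δ) :=
  convex_pi fun _ _ => convex_Icc δ 1

theorem tay_D {n : ℕ} {f : (Fin n → ℝ) → ℝ} (hf : ContDiffOn ℝ 2 f (Og n))
    {D : Fin n → (Fin n → ℝ) → ℝ}
    (hD : ∀ z ∈ Og n, ∀ x, HasDerivAt (fun s => f (Function.update z x s)) (D x z) (z x))
    {z : Fin n → ℝ} (hz : z ∈ Og n) (x : Fin n) :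
    D x z = fderiv ℝ f z (Pi.single x (1 : ℝ)) := by
  have h1 : DifferentiableAt ℝ f z :=
    (hf.differentiableOn (by norm_num)).differentiableAt ((tay_open n).mem_nhds hz)
  have h2 : HasDerivAt (Function.update z x) (Pi.single x (1 : ℝ)) (z x) :=
    hasDerivAt_update z x (z x)
  have h3 : HasFDerivAt f (fderiv ℝ f z) (Function.update z x (z x)) := by
    rw [Function.update_eq_self]
    exact h1.hasFDerivAt
  exact (hD z hz x).unique (h3.comp_hasDerivAt (z x) h2)

theorem st_TAY : ST_TAY := by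
  intro n δ hδ _ f hf D hD
  have hO := tay_open n
  have hsub := tay_sub (n := n) hδ
  have hf1 : ContDiffOn ℝ 1 (fderiv ℝ f) (Og n) :=
    hf.fderiv_of_isOpen hO (by norm_num)
  have hc1 : ContinuousOn (fderiv ℝ f) (Og n) := hf1.continuousOn
  have hc2 : ContinuousOn (fderiv ℝ (fderiv ℝ f)) (Og n) :=
    hf1.continuousOn_fderiv_of_isOpen hO (by norm_num)
  have hd : ∀ v ∈ Og n, DifferentiableAt ℝ f v := fun v hv =>
    (hf.differentiableOn (by norm_num)).differentiableAt (hO.mem_nhds hv)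
  have hd1 : ∀ v ∈ Og n, DifferentiableAt ℝ (fderiv ℝ f) v := fun v hv =>
    (hf1.differentiableOn (by norm_num)).differentiableAt (hO.mem_nhds hv)
  refine ⟨fun x => ?_, ?_⟩
  · have h1 : ContinuousOn (fun z => fderiv ℝ f z (Pi.single x (1 : ℝ))) (Bx n δ) :=
      (hc1.mono hsub).clm_apply continuousOn_const
    exact h1.congr fun z hz => tay_D hf hD (hsub hz) x
  · obtain ⟨L, hL⟩ : ∃ L : ℝ, ∀ v ∈ Bx n δ, ‖fderiv ℝ (fderiv ℝ f) v‖ ≤ L :=
      IsCompact.exists_bound_of_continuousOn (f := fderiv ℝ (fderiv ℝ f)) (tay_compact n δ)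
        (hc2.mono hsub)
    have hL' : ∀ v ∈ Bx n δ, ‖fderiv ℝ (fderiv ℝ f) v‖ ≤ max L 0 := fun v hv =>
      (hL v hv).trans (le_max_left _ _)
    have hL0 : (0 : ℝ) ≤ max L 0 := le_max_right _ _
    generalize max L 0 = C at hL' hL0
    refine ⟨C, hL0, fun u hu z hz => ?_⟩
    have hlip : ∀ v ∈ Bx n δ, ‖fderiv ℝ f v - fderiv ℝ f z‖ ≤ C * ‖v - z‖ := fun v hv =>
      (tay_convex n δ).norm_image_sub_le_of_norm_fderiv_le (fun w hw => hd1 w (hsub hw)) hL' hz hv
    have hseg : segment ℝ z u ⊆ Bx n δ := (tay_convex n δ).segment_subset hz hu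
    have hmain : ‖f u - f z - fderiv ℝ f z (u - z)‖ ≤ C * ‖u - z‖ * ‖u - z‖ := by
      refine (convex_segment z u).norm_image_sub_le_of_norm_fderiv_le'
        (fun w hw => hd w (hsub (hseg hw))) (fun w hw => ?_) (left_mem_segment ℝ z u)
        (right_mem_segment ℝ z u)
      exact (hlip w (hseg hw)).trans
        (mul_le_mul_of_nonneg_left (norm_sub_le_of_mem_segment hw) hL0)
    have hsq : ‖u - z‖ ^ 2 ≤ ∑ x, (u x - z x) ^ 2 := by
      have h0 : 0 ≤ ∑ x, (u x - z x) ^ 2 := Finset.sum_nonneg fun x _ => sq_nonneg _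
      have h1 : ‖u - z‖ ≤ √(∑ x, (u x - z x) ^ 2) := by
        rw [pi_norm_le_iff_of_nonneg (Real.sqrt_nonneg _)]
        intro x
        refine Real.le_sqrt_of_sq_le ?_
        rw [Real.norm_eq_abs, sq_abs]
        exact Finset.single_le_sum (f := fun x => (u x - z x) ^ 2) (fun y _ => sq_nonneg _)
          (Finset.mem_univ x)
      calc ‖u - z‖ ^ 2 ≤ (√(∑ x, (u x - z x) ^ 2)) ^ 2 := by
            gcongr
        _ = ∑ x, (u x - z x) ^ 2 := Real.sq_sqrt h0
    have hlin : fderiv ℝ f z (u - z) = ∑ x, D x z * (u x - z x) := by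
      have e : u - z = ∑ x, (u x - z x) • (Pi.single x (1 : ℝ) : Fin n → ℝ) := by
        ext j
        simp [Finset.sum_apply, Pi.single_apply]
      rw [e, map_sum]
      refine Finset.sum_congr rfl fun x _ => ?_
      rw [map_smul, tay_D hf hD (hsub hz) x, smul_eq_mul, mul_comm]
    have h3 := (le_abs_self _).trans ((Real.norm_eq_abs _).symm.le.trans hmain)
    rw [hlin] at h3
    have h4 : C * ‖u - z‖ * ‖u - z‖ ≤ C * ∑ x, (u x - z x) ^ 2 := by
      rw [mul_assoc, ← pow_two]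
      exact mul_le_mul_of_nonneg_left hsq hL0
    linarith

end Pool.Agent.Helper44.GN
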